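import Pool.Agent.Helper17.Rg.Goals

set_option autoImplicit false

open _root_.Pool.Agent.Helper17.Rg

namespace Pool.Agent.Helper58.Rg

lemma di_le (x : ℝ) (z : ℤ) : di x ≤ |x - z| := by
  unfold di
  exact round_le x z

lemma big (C : ℝ) (hC : Real.log 6 / Real.log 2 < C) :
    ∃ N0 : ℕ, ∀ N : ℕ, N0 ≤ N → 2 * (6 : ℝ) ^ N < 2 ^ (⌊C * N⌋₊ - 1) := by
  set α := Real.log 6 / Real.log 2 with hα
  have hl2 : 0 < Real.log 2 := Real.log_pos (by norm_num)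
  have hl6 : 0 < Real.log 6 := Real.log_pos (by norm_num)
  have hα0 : 0 < α := by positivity
  obtain ⟨N0, hN0⟩ := exists_nat_gt (3 / (C - α))
  refine ⟨N0, fun N hN => ?_⟩
  have hd : 0 < C - α := by linarith
  have h1 : 3 < (C - α) * N := by
    have : 3 / (C - α) < N := lt_of_lt_of_le hN0 (by exact_mod_cast hN)
    rw [div_lt_iff₀ hd] at this
    linarith
  have hNN : (0 : ℝ) ≤ N := Nat.cast_nonneg N
  have h2 : 3 + α * N < C * N := by nlinarith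
  have h3 : (3 : ℝ) ≤ C * N := by nlinarith [mul_nonneg hα0.le hNN]
  have hfl : 1 ≤ ⌊C * N⌋₊ := by
    apply Nat.le_floor
    push_cast
    linarith
  have h4 : C * N - 2 < ((⌊C * N⌋₊ - 1 : ℕ) : ℝ) := by
    rw [Nat.cast_sub hfl]
    have := Nat.lt_floor_add_one (C * (N : ℝ))
    push_cast
    linarith
  have h5 : 1 + α * N < ((⌊C * N⌋₊ - 1 : ℕ) : ℝ) := by linarith
  have h6 : (6 : ℝ) ^ N = (2 : ℝ) ^ (α * N) := by
    rw [Real.rpow_mul (by norm_num), hα]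
    have : (2 : ℝ) ^ (Real.log 6 / Real.log 2) = 6 := by
      rw [Real.rpow_def_of_pos (by norm_num), mul_div_cancel₀ _ hl2.ne', Real.exp_log (by norm_num)]
    rw [this, Real.rpow_natCast]
  rw [h6, ← Real.rpow_natCast 2 (⌊C * N⌋₊ - 1)]
  calc 2 * (2 : ℝ) ^ (α * N) = (2 : ℝ) ^ (1 + α * N) := by
        rw [Real.rpow_add (by norm_num), Real.rpow_one]
    _ < _ := Real.rpow_lt_rpow_of_exponent_lt (by norm_num) h5

theorem oneBad (h : Dig) : OneBad := by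
  intro C hC
  obtain ⟨N0, hN0⟩ := big C hC
  refine ⟨N0, fun N hN x hx => ?_⟩
  have hb := hN0 N hN
  set L := ⌊C * N⌋₊ - 1 with hL
  by_contra hnb
  have hnb0 : nb x N L ≤ 0 := by omega
  have h6 : (0 : ℝ) < 6 ^ N := by positivity
  have hLpos : (0 : ℝ) < 2 ^ L := by positivity
  have hNL : N ≤ L := by
    have h1 : (2 : ℝ) ^ N ≤ 6 ^ N := pow_le_pow_left₀ (by norm_num) (by norm_num) N
    have h2 : (2 : ℝ) ^ N < 2 ^ L := by linarith
    exact ((pow_lt_pow_iff_right₀ (by norm_num : (1 : ℝ) < 2)).1 h2).le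
  obtain ⟨c, g, l, -, -, e2, e3⟩ := h 0 x N L hNL hnb0
  have p2 : pt2 (fun t => (c t : ℝ)) g l = 0 := by
    unfold pt2
    exact Finset.sum_eq_zero (fun t _ => absurd t.2 (by omega))
  have p3 : pt3 (fun t => (c t : ℝ)) g l = 0 := by
    unfold pt3
    exact Finset.sum_eq_zero (fun t _ => absurd t.2 (by omega))
  rw [p2, sub_zero] at e2
  rw [p3, sub_zero] at e3
  set A := round (2 ^ N * x) with hA
  set B := round (3 ^ N * x) with hB
  have hAB : |(A : ℝ) / 2 ^ N - B / 3 ^ N| ≤ 2 / 2 ^ L := by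
    have : (A : ℝ) / 2 ^ N - B / 3 ^ N = (x - B / 3 ^ N) - (x - A / 2 ^ N) := by ring
    rw [this]
    calc _ ≤ |x - B / 3 ^ N| + |x - A / 2 ^ N| := abs_sub _ _
      _ ≤ 1 / 2 ^ L + 1 / 2 ^ L := add_le_add e3 e2
      _ = 2 / 2 ^ L := by ring
  have hAB2 : |(A : ℝ) * 3 ^ N - B * 2 ^ N| < 1 := by
    have e : (A : ℝ) * 3 ^ N - B * 2 ^ N = (A / 2 ^ N - B / 3 ^ N) * 6 ^ N := by
      have : (6 : ℝ) ^ N = 2 ^ N * 3 ^ N := by rw [← mul_pow]; norm_num
      rw [this]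
      field_simp
    rw [e, abs_mul, abs_of_pos h6]
    calc _ ≤ 2 / 2 ^ L * 6 ^ N := mul_le_mul_of_nonneg_right hAB h6.le
      _ = (2 * 6 ^ N) / 2 ^ L := by ring
      _ < 1 := by rw [div_lt_one hLpos]; exact hb
  have hz : A * 3 ^ N - B * 2 ^ N = 0 := by
    have : |A * 3 ^ N - B * 2 ^ N| < 1 := by exact_mod_cast hAB2
    exact Int.abs_lt_one_iff.1 this
  have hdvd : (2 : ℤ) ^ N ∣ A := by
    have h1 : (2 : ℤ) ^ N ∣ A * 3 ^ N := ⟨B, by linarith⟩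
    exact (IsCoprime.dvd_of_dvd_mul_right (IsCoprime.pow (by norm_num)) h1)
  obtain ⟨z, hz2⟩ := hdvd
  have hxz : |x - z| ≤ 1 / 2 ^ L := by
    have : (A : ℝ) / 2 ^ N = z := by
      rw [hz2]; push_cast
      field_simp
    rw [this] at e2
    exact e2
  have h7 : di x ≤ 1 / 2 ^ L := (di_le x z).trans hxz
  have h8 : (1 : ℝ) / 2 ^ L < 1 / 6 ^ N := by
    apply one_div_lt_one_div_of_lt h6
    linarith
  linarith

end Pool.Agent.Helper58.Rg
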